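import Pool.Agent.V11196.SW.Final

/-!
# The kernel map of a solution with `n ≥ 4` spinors need not extend over the blow-up set

On the flat torus `T³` with its trivial spin structure, and for every `n ≥ 4`, there are a smooth
`SU(n)`-connection `B` on the trivial bundle `T³ × ℂⁿ` and a solution `(A, Ψ, 0)` over the complement
of one point whose kernel map `m ↦ ker Ψ_m` does not extend continuously over that point.

Near the point, `B` and `A` vanish and `Ψ(x) = x₁ W₁ + x₂ W₂ + x₃ W₃` is the linear harmonic spinor
`ℝ³ → Hom(V_{3/2}, V_{1/2})` equivariant under `SU(2)` (plus zero columns if `n > 4`).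
-/

namespace Pool.Agent.Results.MP_92a303_gt.KernelMapNoExtension

open Pool.Agent.V11196.SW

theorem result (n : ℕ) (hn : 4 ≤ n) :
    ∃ (B : Fin 3 → V → Matrix (Fin n) (Fin n) ℂ) (Z : Set V) (A : Fin 3 → V → ℝ)
      (Ψ : V → Matrix (Fin 2) (Fin n) ℂ),
      IsSUConnection B ∧ IsSolution B Z A Ψ ∧ ¬ KernelMapExtends Z Ψ :=
  ⟨BB (model n hn), ZZ, AA (model n hn), Psi (model n hn), isSU _,
    isSolution _ (model_norm n hn), not_extends n hn⟩

end Pool.Agent.Results.MP_92a303_gt.KernelMapNoExtension
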